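import Mathlib

set_option autoImplicit false

open Set Topology

namespace Pool.Agent.X177.VR

/-- The Vietoris-Rips complex `VR_<(Y; r)`: its simplices are the nonempty finite subsets of `Y` of
diameter less than `r`. -/
def vietorisRips (Y : Type*) [MetricSpace Y] (r : ℝ) : Set (Finset Y) :=
  {σ | σ.Nonempty ∧ Metric.diam (σ : Set Y) < r}

/-- The points of the geometric realisation of a simplicial complex `K` with vertices in `V`:
the functions on `V` with nonnegative values of sum `1`, supported on a simplex
(barycentric coordinates). -/
structure Realization {V : Type*} (K : Set (Finset V)) where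
  coord : V →₀ ℝ
  nonneg : ∀ v, 0 ≤ coord v
  sum_eq_one : (coord.sum fun _ a => a) = 1
  supported : ∃ σ ∈ K, coord.support ⊆ σ

namespace Realization

variable {V : Type*} {K : Set (Finset V)}

theorem ext' {x y : Realization K} (h : ∀ v, x.coord v = y.coord v) : x = y := by
  cases x
  cases y
  congr
  ext v
  exact h v

open Classical in
/-- The closed simplex of `K` spanned by `σ`, mapped to the realisation. -/
noncomputable def face (σ : K) (w : stdSimplex ℝ (σ : Finset V)) : Realization K where
  coord := Finsupp.onFinset (σ : Finset V) (fun v => if h : v ∈ (σ : Finset V) then w.1 ⟨v, h⟩ else 0)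
    (by
      intro v hv
      by_contra h
      exact hv (dif_neg h))
  nonneg v := by
    rw [Finsupp.onFinset_apply]
    split_ifs with h
    · exact w.2.1 _
    · exact le_rfl
  sum_eq_one := by
    rw [Finsupp.sum_of_support_subset _ Finsupp.support_onFinset_subset _ (by simp)]
    have h : ∀ v ∈ (σ : Finset V).attach, w.1 v = (Finsupp.onFinset (σ : Finset V)
        (fun v => if h : v ∈ (σ : Finset V) then w.1 ⟨v, h⟩ else 0) (by
          intro v hv
          by_contra h
          exact hv (dif_neg h)) : V →₀ ℝ) v := by
      intro v _
      rw [Finsupp.onFinset_apply, dif_pos v.2]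
    rw [← Finset.sum_attach, ← Finset.sum_congr rfl h]
    have h2 := w.2.2
    rw [Finset.univ_eq_attach] at h2
    exact h2
  supported := ⟨σ, σ.2, Finsupp.support_onFinset_subset⟩

theorem face_apply_mem (σ : K) (w : stdSimplex ℝ (σ : Finset V)) (v : V)
    (h : v ∈ (σ : Finset V)) : (face σ w).coord v = w.1 ⟨v, h⟩ := by
  unfold face
  simp [h]

theorem face_apply_not_mem (σ : K) (w : stdSimplex ℝ (σ : Finset V)) (v : V)
    (h : v ∉ (σ : Finset V)) : (face σ w).coord v = 0 := by
  unfold face
  simp [h]

/-- The weak topology on the geometric realisation: the finest topology for which all the maps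
`face σ` from the closed simplices are continuous. -/
noncomputable instance : TopologicalSpace (Realization K) :=
  ⨆ σ : K, TopologicalSpace.coinduced (face σ) inferInstance

theorem continuous_face (σ : K) : Continuous (face σ) := by
  rw [continuous_iff_coinduced_le]
  exact le_iSup (fun σ : K => TopologicalSpace.coinduced (face σ) inferInstance) σ

theorem continuous_of_face {Z : Type*} [TopologicalSpace Z] {f : Realization K → Z}
    (h : ∀ σ : K, Continuous (f ∘ face σ)) : Continuous f := by
  rw [continuous_iff_coinduced_le]
  rw [show (instTopologicalSpace : TopologicalSpace (Realization K)) =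
    ⨆ σ : K, TopologicalSpace.coinduced (face σ) inferInstance from rfl, coinduced_iSup]
  apply iSup_le
  intro σ
  rw [coinduced_compose]
  exact continuous_iff_coinduced_le.1 (h σ)

theorem continuous_coord (v : V) : Continuous (fun x : Realization K => x.coord v) := by
  apply continuous_of_face
  intro σ
  by_cases h : v ∈ (σ : Finset V)
  · have : (fun x : Realization K => x.coord v) ∘ face σ = fun w => w.1 ⟨v, h⟩ := by
      ext w
      exact face_apply_mem σ w v h
    rw [this]
    exact (continuous_apply _).comp continuous_subtype_val
  · have : (fun x : Realization K => x.coord v) ∘ face σ = fun _ => 0 := by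
      ext w
      exact face_apply_not_mem σ w v h
    rw [this]
    exact continuous_const

theorem exists_face (x : Realization K) : ∃ (σ : K) (w : stdSimplex ℝ (σ : Finset V)),
    face σ w = x := by
  obtain ⟨σ, hσ, hs⟩ := x.supported
  have hsum : ∑ v : (σ : Finset V), x.coord v = 1 := by
    rw [Finset.univ_eq_attach, Finset.sum_attach σ (fun v => x.coord v),
      ← Finsupp.sum_of_support_subset x.coord hs (fun _ a => a) (by simp)]
    exact x.sum_eq_one
  refine ⟨⟨σ, hσ⟩, ⟨fun v => x.coord v, fun v => x.nonneg v, hsum⟩, ?_⟩
  apply ext'
  intro v
  by_cases h : v ∈ σ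
  · exact face_apply_mem _ _ v h
  · rw [face_apply_not_mem _ _ v h]
    by_contra h2
    exact h (hs (Finsupp.mem_support_iff.2 (Ne.symm h2)))

/-- the coordinate map -/
def ev (x : Realization K) : V → ℝ := fun v => x.coord v

theorem continuous_ev : Continuous (ev : Realization K → V → ℝ) :=
  continuous_pi fun v => continuous_coord v

theorem ev_injective : Function.Injective (ev : Realization K → V → ℝ) := by
  intro x y h
  exact ext' fun v => congrFun h v

theorem isEmbedding_ev [Finite V] : IsClosedEmbedding (ev : Realization K → V → ℝ) := by
  have hfin : Finite (Finset V) := by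
    have := Fintype.ofFinite V
    infer_instance
  have hc : CompactSpace (Realization K) := by
    have h1 : (univ : Set (Realization K)) = ⋃ σ : K, range (face σ) := by
      ext x
      simp only [mem_univ, mem_iUnion, true_iff]
      obtain ⟨σ, w, h⟩ := exists_face x
      exact ⟨σ, w, h⟩
    rw [← isCompact_univ_iff, h1]
    apply isCompact_iUnion
    intro σ
    exact isCompact_range (continuous_face σ)
  exact continuous_ev.isClosedEmbedding ev_injective

end Realization

end Pool.Agent.X177.VR
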