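import Mathlib
import Pool.Agent.X177.VR.Real
import Pool.Agent.Helper608.Brouwer

set_option autoImplicit false

open Set Topology Metric

namespace Pool.Agent.X177.VR

/-- Euclidean space -/
abbrev Ed (d : ℕ) : Type := EuclideanSpace ℝ (Fin d)
/-- the unit sphere of `ℝ^d` -/
abbrev Sd (d : ℕ) : Type := sphere (0 : Ed d) 1

/-- The identity of the sphere `S^{d-1}` is not homotopic to a constant map. -/
theorem sphere_not_nullhomotopic (d : ℕ) : ¬ (ContinuousMap.id (Sd d)).Nullhomotopic := by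
  rintro ⟨c, ⟨F⟩⟩
  set t : Ed d → unitInterval := fun x => projIcc 0 1 zero_le_one (2 - 2 * ‖x‖) with ht
  have htc : Continuous t := continuous_projIcc.comp (by fun_prop)
  have hn : ∀ x : Ed d, x ≠ 0 → ‖x‖⁻¹ • x ∈ sphere (0 : Ed d) 1 := by
    intro x hx
    rw [mem_sphere_zero_iff_norm, norm_smul, norm_inv, norm_norm,
      inv_mul_cancel₀ (norm_ne_zero_iff.2 hx)]
  set f : Ed d → Ed d := fun x => if h : x ≠ 0 then
    (max ‖x‖ 1) • ((F (t x, ⟨‖x‖⁻¹ • x, hn x h⟩) : Sd d) : Ed d) else (c : Ed d) with hf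
  have hf0 : ∀ x : Ed d, ‖x‖ < 1 / 2 → f x = c := by
    intro x hx
    by_cases h : x ≠ 0
    · have h1 : t x = 1 := by
        simp only [ht]
        rw [projIcc_of_right_le _ (by linarith)]
        rfl
      simp only [hf, dif_pos h, h1]
      have h2 : F (1, (⟨‖x‖⁻¹ • x, hn x h⟩ : Sd d)) = c := by
        rw [F.apply_one]; rfl
      rw [h2, max_eq_right (by linarith), one_smul]
    · simp only [hf, dif_neg h]
  have hfc : Continuous f := by
    rw [continuous_iff_continuousAt]
    intro x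
    by_cases hx : x = 0
    · subst hx
      refine (continuousAt_const : ContinuousAt (fun _ : Ed d => (c : Ed d)) 0).congr ?_
      filter_upwards [ball_mem_nhds (0 : Ed d) (by norm_num : (0 : ℝ) < 1 / 2)] with y hy
      exact (hf0 y (by simpa using hy)).symm
    · have hon : ContinuousOn f {y | y ≠ 0} := by
        rw [continuousOn_iff_continuous_domRestrict]
        have : ({y : Ed d | y ≠ 0}).domRestrict f = fun y : {y : Ed d | y ≠ 0} =>
            (max ‖(y : Ed d)‖ 1) • ((F (t y, ⟨‖(y : Ed d)‖⁻¹ • (y : Ed d), hn y y.2⟩) : Sd d) : Ed d)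
            := by
          funext y
          exact dif_pos y.2
        rw [this]
        have hnc : Continuous fun y : {y : Ed d | y ≠ 0} =>
            (⟨‖(y : Ed d)‖⁻¹ • (y : Ed d), hn y y.2⟩ : Sd d) := by
          refine Continuous.subtype_mk ?_ _
          exact (continuous_subtype_val.norm.inv₀ (fun y => norm_ne_zero_iff.2 y.2)).smul
            continuous_subtype_val
        exact ((continuous_subtype_val.norm).max continuous_const).smul
          (continuous_subtype_val.comp
            (F.continuous.comp ((htc.comp continuous_subtype_val).prodMk hnc)))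
      exact (hon x hx).continuousAt (isOpen_ne.mem_nhds hx)
  obtain ⟨x, hx⟩ := Pool.Agent.Helper608.Brouwer.exists_zero d f hfc 1 one_pos (by
    intro x hx
    have h : x ≠ 0 := by
      rintro rfl; norm_num at hx
    have h1 : t x = 0 := by
      simp only [ht]
      rw [projIcc_of_le_left _ (by linarith)]
      rfl
    simp only [hf, dif_pos h, h1]
    have h2 : F (0, (⟨‖x‖⁻¹ • x, hn x h⟩ : Sd d)) = (⟨‖x‖⁻¹ • x, hn x h⟩ : Sd d) := by
      rw [F.apply_zero]; rfl
    rw [h2, max_eq_left hx, smul_smul, mul_inv_cancel₀ (by linarith), one_smul])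
  by_cases h : x ≠ 0
  · simp only [hf, dif_pos h] at hx
    have h1 : ‖((F (t x, (⟨‖x‖⁻¹ • x, hn x h⟩ : Sd d)) : Sd d) : Ed d)‖ = 1 :=
      mem_sphere_zero_iff_norm.1 (F (t x, (⟨‖x‖⁻¹ • x, hn x h⟩ : Sd d)) : Sd d).2
    have h2 := congrArg norm hx
    rw [norm_smul, h1, norm_zero, mul_one, norm_eq_zero] at h2
    have := le_max_right ‖x‖ 1
    rw [h2] at this
    linarith
  · simp only [hf, dif_neg h] at hx
    have h1 : ‖(c : Ed d)‖ = 1 := mem_sphere_zero_iff_norm.1 c.2
    rw [hx, norm_zero] at h1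
    norm_num at h1

/-- normalisation of a nowhere zero map -/
noncomputable def normalize {A : Type*} [TopologicalSpace A] {d : ℕ} (u : C(A, Ed d))
    (hu : ∀ a, u a ≠ 0) : C(A, Sd d) where
  toFun a := ⟨‖u a‖⁻¹ • u a, by
    rw [mem_sphere_zero_iff_norm, norm_smul, norm_inv, norm_norm,
      inv_mul_cancel₀ (norm_ne_zero_iff.2 (hu a))]⟩
  continuous_toFun := by
    refine Continuous.subtype_mk ?_ _
    exact (u.continuous.norm.inv₀ (fun a => norm_ne_zero_iff.2 (hu a))).smul u.continuous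

theorem normalize_homotopic {A : Type*} [TopologicalSpace A] {d : ℕ} (u v : C(A, Ed d))
    (hu : ∀ a, u a ≠ 0) (hv : ∀ a, v a ≠ 0)
    (h : ∀ a, ∀ t : ℝ, 0 ≤ t → t ≤ 1 → (1 - t) • u a + t • v a ≠ 0) :
    (normalize u hu).Homotopic (normalize v hv) := by
  set W : C(unitInterval × A, Ed d) :=
    ⟨fun p => (1 - (p.1 : ℝ)) • u p.2 + (p.1 : ℝ) • v p.2, by fun_prop⟩ with hW
  have hW0 : ∀ p, W p ≠ 0 := fun p => h p.2 p.1 p.1.2.1 p.1.2.2
  refine ⟨⟨⟨fun p => normalize W hW0 p, (normalize W hW0).continuous⟩, ?_, ?_⟩⟩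
  · intro a
    apply Subtype.ext
    show ‖(1 - (0 : ℝ)) • u a + (0 : ℝ) • v a‖⁻¹ • ((1 - (0 : ℝ)) • u a + (0 : ℝ) • v a)
      = ‖u a‖⁻¹ • u a
    simp
  · intro a
    apply Subtype.ext
    show ‖(1 - (1 : ℝ)) • u a + (1 : ℝ) • v a‖⁻¹ • ((1 - (1 : ℝ)) • u a + (1 : ℝ) • v a)
      = ‖v a‖⁻¹ • v a
    simp

/-- Every continuous map from a finite complex with less than `d - 1` vertices to `S^{d-1}` is
null-homotopic. -/
theorem nullhomotopic_of_card {V : Type} [Fintype V] {K : Set (Finset V)} {d : ℕ}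
    (hd : Fintype.card V + 1 < d) (f : C(Realization K, Sd d)) : f.Nullhomotopic := by
  classical
  set f' : C(Realization K, Ed d) := ⟨fun x => (f x : Ed d), by fun_prop⟩ with hf'
  have hemb := Realization.isEmbedding_ev (K := K)
  have hf1 : ∀ x, ‖f' x‖ = 1 := fun x => mem_sphere_zero_iff_norm.1 (f x).2
  have hf0 : ∀ x, f' x ≠ 0 := by
    intro x hx
    have := hf1 x
    rw [hx, norm_zero] at this
    norm_num at this
  -- coordinates, extended
  obtain ⟨F, hF⟩ : ∃ F : C(V → ℝ, Ed d), ∀ x, F (Realization.ev x) = f' x := by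
    set f'' : C(Realization K, Fin d → ℝ) := ⟨fun x i => f' x i, by fun_prop⟩ with hf''
    obtain ⟨g, hg⟩ := ContinuousMap.exists_extension hemb f''
    refine ⟨⟨fun y => WithLp.toLp 2 (g y), by fun_prop⟩, fun x => ?_⟩
    have h1 : g (Realization.ev x) = f'' x := by
      rw [← hg]; rfl
    show WithLp.toLp 2 (g (Realization.ev x)) = f' x
    rw [h1]
    rfl
  obtain ⟨G, hG, hGF, -⟩ := F.continuous.exists_contDiff_approx 1 (ε := fun _ => 1)
    continuous_const (fun _ => one_pos)
  set g : C(Realization K, Ed d) := ⟨fun x => G (Realization.ev x),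
    hG.continuous.comp Realization.continuous_ev⟩ with hg
  have hgf : ∀ x, ‖g x - f' x‖ < 1 := by
    intro x
    rw [← hF x, ← dist_eq_norm]
    exact hGF _
  have hline : ∀ x, ∀ t : ℝ, 0 ≤ t → t ≤ 1 → (1 - t) • f' x + t • g x ≠ 0 := by
    intro x t ht0 ht1 h
    have h1 : (1 - t) • f' x + t • g x = f' x + t • (g x - f' x) := by module
    rw [h1] at h
    have h2 : ‖f' x‖ = ‖t • (g x - f' x)‖ :=
      (congrArg norm (eq_neg_of_add_eq_zero_left h)).trans (norm_neg _)
    rw [hf1, norm_smul, Real.norm_of_nonneg ht0] at h2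
    have h3 := hgf x
    nlinarith [norm_nonneg (g x - f' x)]
  have hg0 : ∀ x, g x ≠ 0 := by
    intro x hx
    apply hline x 1 zero_le_one le_rfl
    rw [hx]; simp
  -- a missed direction
  obtain ⟨q, hq⟩ : ∃ q : Ed d, ∀ (s : ℝ) (y : V → ℝ), s • G y ≠ q := by
    have h1 : ContDiff ℝ 1 (fun p : ℝ × (V → ℝ) => p.1 • G p.2) :=
      contDiff_fst.smul (hG.comp contDiff_snd)
    have h2 := h1.dense_compl_range_of_finrank_lt_finrank (by
      rw [Module.finrank_prod, Module.finrank_self, Module.finrank_fintype_fun_eq_card,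
        finrank_euclideanSpace, Fintype.card_fin]
      omega)
    obtain ⟨q, hq⟩ := h2.nonempty
    refine ⟨q, fun s y h => hq ⟨(s, y), h⟩⟩
  have hq0 : q ≠ 0 := by
    intro h
    exact hq 0 0 (by rw [h, zero_smul])
  have hmiss : ∀ x, ∀ t : ℝ, 0 ≤ t → t ≤ 1 → (1 - t) • g x + t • (-q) ≠ 0 := by
    intro x t ht0 ht1 h
    rcases eq_or_lt_of_le ht0 with h0 | h0
    · rw [← h0] at h
      apply hg0 x
      simpa using h
    · apply hq (t⁻¹ * (1 - t)) (Realization.ev x)
      have h1 : (1 - t) • g x = t • q := by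
        rw [smul_neg] at h
        exact add_neg_eq_zero.1 h
      rw [mul_smul]
      show t⁻¹ • ((1 - t) • g x) = q
      rw [h1, smul_smul, inv_mul_cancel₀ h0.ne', one_smul]
  have e1 : f = normalize f' hf0 := by
    ext1 x
    apply Subtype.ext
    show (f x : Ed d) = ‖f' x‖⁻¹ • f' x
    rw [hf1, inv_one, one_smul]
    rfl
  have e2 := normalize_homotopic f' g hf0 hg0 hline
  have e3 := normalize_homotopic g (ContinuousMap.const _ (-q)) hg0 (fun _ => neg_ne_zero.2 hq0)
    hmiss
  refine ⟨normalize (ContinuousMap.const Unit (-q)) (fun _ => neg_ne_zero.2 hq0) (), ?_⟩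
  rw [e1]
  exact e2.trans e3

end Pool.Agent.X177.VR
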