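import Mathlib
import Pool.Agent.X177.VR.Null

set_option autoImplicit false

open Set Topology Metric

namespace Pool.Agent.X177.VR

section cross

variable {V : Type} [Fintype V] {K : Set (Finset V)} {d : ℕ}

theorem l1_pos (x : Sd d) : 0 < ∑ k, |(x : Ed d) k| := by
  have hx : (x : Ed d) ≠ 0 := by
    intro h
    have := mem_sphere_zero_iff_norm.1 x.2
    rw [h, norm_zero] at this
    norm_num at this
  obtain ⟨k, hk⟩ : ∃ k, (x : Ed d) k ≠ 0 := by
    by_contra hno
    push Not at hno
    exact hx (PiLp.ext hno)
  exact Finset.sum_pos' (fun i _ => abs_nonneg _) ⟨k, Finset.mem_univ k, abs_pos.2 hk⟩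

open Classical in
/-- weights of the cross-polytope map -/
noncomputable def wt (s : Fin d → Bool → V) (x : Ed d) (v : V) : ℝ :=
  (∑ k, ((if s k true = v then max (x k) 0 else 0) + (if s k false = v then max (-x k) 0 else 0)))
    / ∑ k, |x k|

theorem wt_nonneg (s : Fin d → Bool → V) (x : Ed d) (v : V) : 0 ≤ wt s x v := by
  apply div_nonneg
  · apply Finset.sum_nonneg
    intro k _
    apply add_nonneg
    · split_ifs
      · exact le_max_right _ _
      · exact le_rfl
    · split_ifs
      · exact le_max_right _ _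
      · exact le_rfl
  · exact Finset.sum_nonneg fun k _ => abs_nonneg _

theorem max_add_max (a : ℝ) : max a 0 + max (-a) 0 = |a| := by
  rcases le_total a 0 with h | h
  · rw [max_eq_right h, max_eq_left (by linarith), abs_of_nonpos h, zero_add]
  · rw [max_eq_left h, max_eq_right (by linarith), abs_of_nonneg h, add_zero]

theorem max_sub_max (a : ℝ) : max a 0 - max (-a) 0 = a := by
  rcases le_total a 0 with h | h
  · rw [max_eq_right h, max_eq_left (by linarith)]; ring
  · rw [max_eq_left h, max_eq_right (by linarith)]; ring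

/-- sums against the weights -/
theorem sum_wt (s : Fin d → Bool → V) (x : Ed d) (g : V → ℝ) :
    ∑ v, wt s x v * g v = (∑ k, (max (x k) 0 * g (s k true) + max (-x k) 0 * g (s k false)))
      / ∑ k, |x k| := by
  classical
  unfold wt
  have h1 : ∀ v, (∑ k, ((if s k true = v then max (x k) 0 else 0)
      + (if s k false = v then max (-x k) 0 else 0))) / (∑ k, |x k|) * g v
      = (∑ k, ((if s k true = v then max (x k) 0 * g v else 0)
      + (if s k false = v then max (-x k) 0 * g v else 0))) / (∑ k, |x k|) := by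
    intro v
    rw [div_mul_eq_mul_div, Finset.sum_mul]
    congr 1
    apply Finset.sum_congr rfl
    intro k _
    rw [add_mul, ite_mul, ite_mul, zero_mul]
  rw [Finset.sum_congr rfl (fun v _ => h1 v), ← Finset.sum_div, Finset.sum_comm]
  congr 1
  apply Finset.sum_congr rfl
  intro k _
  rw [Finset.sum_add_distrib, Finset.sum_ite_eq, Finset.sum_ite_eq]
  simp

/-- the cross-polytope sphere in the realisation -/
noncomputable def crossMap (s : Fin d → Bool → V)
    (H4 : ∀ τ : Fin d → Bool, ∃ σ ∈ K, ∀ k, s k (τ k) ∈ σ) (x : Sd d) : Realization K where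
  coord := Finsupp.equivFunOnFinite.symm (wt s (x : Ed d))
  nonneg v := wt_nonneg s _ v
  sum_eq_one := by
    rw [Finsupp.sum_fintype _ _ (by simp)]
    have h := sum_wt s (x : Ed d) (fun _ => 1)
    simp only [mul_one] at h
    have h2 : ∑ v, (Finsupp.equivFunOnFinite.symm (wt s (x : Ed d))) v
        = ∑ v, wt s (x : Ed d) v := rfl
    rw [h2, h]
    simp only [max_add_max]
    exact div_self (l1_pos x).ne'
  supported := by
    classical
    obtain ⟨σ, hσ, hs⟩ := H4 (fun k => decide (0 ≤ (x : Ed d) k))
    refine ⟨σ, hσ, ?_⟩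
    intro v hv
    rw [Finsupp.mem_support_iff] at hv
    by_contra hno
    apply hv
    show wt s (x : Ed d) v = 0
    unfold wt
    rw [Finset.sum_eq_zero, zero_div]
    intro k _
    have hk := hs k
    by_cases h0 : 0 ≤ (x : Ed d) k
    · simp only [h0, decide_true] at hk
      have h1 : s k true ≠ v := by
        rintro rfl; exact hno hk
      rw [if_neg h1, zero_add, max_eq_right (by linarith)]
      simp
    · simp only [h0, decide_false] at hk
      have h1 : s k false ≠ v := by
        rintro rfl; exact hno hk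
      rw [if_neg h1, add_zero, max_eq_right (by linarith)]
      simp

theorem continuous_crossMap (s : Fin d → Bool → V)
    (H4 : ∀ τ : Fin d → Bool, ∃ σ ∈ K, ∀ k, s k (τ k) ∈ σ) : Continuous (crossMap s H4) := by
  classical
  rw [(Realization.isEmbedding_ev (K := K)).isEmbedding.continuous_iff]
  apply continuous_pi
  intro v
  show Continuous fun x : Sd d => wt s (x : Ed d) v
  unfold wt
  apply Continuous.div
  · apply continuous_finsetSum
    intro k _
    apply Continuous.add
    · split_ifs <;> fun_prop
    · split_ifs <;> fun_prop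
  · fun_prop
  · exact fun x => (l1_pos x).ne'

/-- **The sphere `S^{d-1}` is a retract of the complex.** -/
theorem sphere_retract (E : Fin d → V → ℝ) (s : Fin d → Bool → V)
    (H1 : ∀ v, ∃ j, E j v ≠ 0)
    (H2 : ∀ σ ∈ K, ∀ v ∈ σ, ∀ w ∈ σ, ∀ j, 0 ≤ E j v * E j w)
    (H3 : ∀ j k b, E j (s k b) = if j = k then (if b then 1 else -1) else 0)
    (H4 : ∀ τ : Fin d → Bool, ∃ σ ∈ K, ∀ k, s k (τ k) ∈ σ) :
    ∃ (i : C(Sd d, Realization K)) (R : C(Realization K, Sd d)), R.comp i = ContinuousMap.id _ := by
  set u : C(Realization K, Ed d) :=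
    ⟨fun ξ => WithLp.toLp 2 (fun j => ∑ v, ξ.coord v * E j v), by
      have : Continuous fun ξ : Realization K => fun j => ∑ v, ξ.coord v * E j v := by
        apply continuous_pi
        intro j
        apply continuous_finsetSum
        intro v _
        exact (Realization.continuous_coord v).mul continuous_const
      exact (PiLp.continuous_toLp 2 _).comp this⟩ with hu
  have hu0 : ∀ ξ, u ξ ≠ 0 := by
    intro ξ h
    obtain ⟨σ, hσ, hs⟩ := ξ.supported
    have hne : ∃ v, ξ.coord v ≠ 0 := by
      by_contra hno
      push Not at hno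
      have h1 := ξ.sum_eq_one
      have h2 : ξ.coord = 0 := by ext v; exact hno v
      rw [h2] at h1
      simp at h1
    obtain ⟨v, hv⟩ := hne
    obtain ⟨j, hj⟩ := H1 v
    have h3 : ∑ w, ξ.coord w * E j w = 0 := by
      have := congrArg (fun z : Ed d => z j) h
      exact this
    have h4 : ∑ w, (ξ.coord w * E j w) * E j v = 0 := by
      rw [← Finset.sum_mul, h3, zero_mul]
    have h5 : ∀ w ∈ Finset.univ, 0 ≤ (ξ.coord w * E j w) * E j v := by
      intro w _
      by_cases hw : ξ.coord w = 0
      · rw [hw]; simp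
      · have hw' : w ∈ σ := hs (Finsupp.mem_support_iff.2 hw)
        have hv' : v ∈ σ := hs (Finsupp.mem_support_iff.2 hv)
        have h6 := H2 σ hσ w hw' v hv' j
        have h7 := mul_nonneg (ξ.nonneg w) h6
        linarith
    have h8 := (Finset.sum_eq_zero_iff_of_nonneg h5).1 h4 v (Finset.mem_univ v)
    rcases mul_eq_zero.1 h8 with h9 | h9
    · rcases mul_eq_zero.1 h9 with h10 | h10
      · exact hv h10
      · exact hj h10
    · exact hj h9
  refine ⟨⟨crossMap s H4, continuous_crossMap s H4⟩, normalize u hu0, ?_⟩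
  ext1 x
  apply Subtype.ext
  have hux : u (crossMap s H4 x) = (∑ k, |(x : Ed d) k|)⁻¹ • (x : Ed d) := by
    apply PiLp.ext
    intro j
    show ∑ v, wt s (x : Ed d) v * E j v = (∑ k, |(x : Ed d) k|)⁻¹ * (x : Ed d) j
    rw [sum_wt, div_eq_inv_mul]
    congr 1
    simp only [H3]
    rw [Finset.sum_eq_single j]
    · simp only [if_true]
      have h1 := max_sub_max ((x : Ed d) j)
      simp
      linarith
    · intro k _ hk
      simp [hk.symm]
    · intro h
      exact absurd (Finset.mem_univ j) h
  show ‖u (crossMap s H4 x)‖⁻¹ • u (crossMap s H4 x) = (x : Ed d)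
  have hx1 := mem_sphere_zero_iff_norm.1 x.2
  rw [hux, norm_smul, hx1, mul_one, Real.norm_of_nonneg (inv_nonneg.2 (l1_pos x).le), inv_inv,
    smul_smul, mul_inv_cancel₀ (l1_pos x).ne', one_smul]

end cross

end Pool.Agent.X177.VR
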