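import Mathlib
import Pool.Agent.X177.VR.Cross

set_option autoImplicit false

open Set Topology Metric
open scoped ContinuousMap

namespace Pool.Agent.X177.VR

/-- the data on a finite subset used to produce a sphere retract -/
def HasCross {Y : Type} (K : Set (Finset Y)) (d : ℕ) : Prop :=
  ∃ (E : Fin d → Y → ℝ) (s : Fin d → Bool → Y), (∀ v, ∃ j, E j v ≠ 0) ∧
    (∀ σ ∈ K, ∀ v ∈ σ, ∀ w ∈ σ, ∀ j, 0 ≤ E j v * E j w) ∧
    (∀ j k b, E j (s k b) = if j = k then (if b then 1 else -1) else 0) ∧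
    (∀ τ : Fin d → Bool, ∃ σ ∈ K, ∀ k, s k (τ k) ∈ σ)

/-- complexes with a sphere retract of large dimension are not homotopy equivalent to complexes
with few vertices -/
theorem not_equiv {V W : Type} [Finite V] [Finite W] {K : Set (Finset V)} {L : Set (Finset W)}
    {d : ℕ} (hd : Nat.card W + 1 < d) (hK : HasCross K d) (h : Realization K ≃ₕ Realization L) :
    False := by
  have := Fintype.ofFinite V
  have := Fintype.ofFinite W
  obtain ⟨E, s, H1, H2, H3, H4⟩ := hK
  obtain ⟨i, R, hRi⟩ := sphere_retract E s H1 H2 H3 H4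
  rw [Nat.card_eq_fintype_card] at hd
  obtain ⟨c, hc⟩ := nullhomotopic_of_card hd (R.comp h.invFun)
  apply sphere_not_nullhomotopic d
  refine ⟨c, ?_⟩
  have e1 : ((R.comp h.invFun).comp (h.toFun.comp i)).Homotopic (ContinuousMap.id (Sd d)) := by
    have h1 : ((h.invFun.comp h.toFun)).Homotopic (ContinuousMap.id _) := h.left_inv
    have h2 := (ContinuousMap.Homotopic.refl R).comp (h1.comp (ContinuousMap.Homotopic.refl i))
    have h3 : (R.comp h.invFun).comp (h.toFun.comp i) = R.comp ((h.invFun.comp h.toFun).comp i) :=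
      rfl
    rw [h3]
    refine h2.trans ?_
    have h4 : R.comp ((ContinuousMap.id _).comp i) = ContinuousMap.id _ := hRi
    rw [h4]
  have e2 := hc.comp (ContinuousMap.Homotopic.refl (h.toFun.comp i))
  exact e1.symm.trans e2

/-- the abstract density failure -/
theorem density_fails {M : Type} [MetricSpace M] {r : ℝ} {ε : ℝ}
    (H : ∀ N : ℕ, ∃ (X : Set M) (d : ℕ), N < d ∧ X.Finite ∧ (∀ p : M, ∃ x ∈ X, dist p x < ε) ∧
      HasCross (vietorisRips X r) d) :
    ∃ X : Set M, X.Finite ∧ (∀ p : M, ∃ x ∈ X, dist p x < ε) ∧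
      IsEmpty (Realization (vietorisRips X r) ≃ₕ Realization (vietorisRips M r)) := by
  by_contra hno
  push Not at hno
  obtain ⟨X, -, -, hX, hXd, -⟩ := H 0
  obtain ⟨h1⟩ := hno X hX hXd
  obtain ⟨Y, d, hd, hY, hYd, hC⟩ := H (Nat.card X + 1)
  obtain ⟨h2⟩ := hno Y hY hYd
  have := hX.to_subtype
  have := hY.to_subtype
  exact not_equiv hd hC (h2.trans h1.symm)

end Pool.Agent.X177.VR
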